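import Mathlib

/-!
The set of escape sequences of rotor walks on a tree is closed downwards.
-/

open Filter

namespace Pool.Agent.Results.MP_4b601f_co.DownwardClosed

/-! ### Rotor walks -/

/-- The parent of a vertex; `none` is the root `ρ`, the empty list is its child, and `w ++ [i]` is
the `i`-th child of `w`. -/
def parent (w : List ℕ) : Option (List ℕ) := if w = [] then none else some w.dropLast

/-- One step of the rotor walk on the tree in which the vertex `w` has `b w` children. The state
is the position of the particle and the rotor configuration. The run of a particle ends when it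
reaches the root. -/
def step (b : List ℕ → ℕ) : Option (List ℕ) × (List ℕ → ℕ) → Option (List ℕ) × (List ℕ → ℕ)
  | (none, r) => (none, r)
  | (some w, r) =>
    (if (r w + 1) % (b w + 1) = 0 then parent w else some (w ++ [(r w + 1) % (b w + 1)]),
      Function.update r w ((r w + 1) % (b w + 1)))

/-- The state after `n` steps of the run of a particle that has moved from the root to its
child, with initial rotor configuration `r`. -/
def traj (b : List ℕ → ℕ) (r : List ℕ → ℕ) (n : ℕ) : Option (List ℕ) × (List ℕ → ℕ) :=
  (step b)^[n] (some [], r)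

/-- The particle never returns to the root. -/
def Escapes (b : List ℕ → ℕ) (r : List ℕ → ℕ) : Prop := ∀ n, (traj b r n).1 ≠ none

/-- The rotor configuration after the run of a particle: the limiting values of the rotors. -/
noncomputable def final (b : List ℕ → ℕ) (r : List ℕ → ℕ) : List ℕ → ℕ :=
  fun w => limUnder atTop fun n => (traj b r n).2 w

/-- The rotor configuration after the runs of `m` particles. -/
noncomputable def conf (b : List ℕ → ℕ) (r : List ℕ → ℕ) : ℕ → List ℕ → ℕ
  | 0 => r
  | m + 1 => final b (conf b r m)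

/-- `r` is a rotor configuration on the tree. -/
def IsConfig (b r : List ℕ → ℕ) : Prop := ∀ w, r w ≤ b w

/-- `e` is an escape sequence for the tree: there is a rotor configuration for which `e m` holds
if and only if the particle number `m + 1` escapes. -/
def IsEscapeSequence (b : List ℕ → ℕ) (e : ℕ → Bool) : Prop :=
  ∃ r, IsConfig b r ∧ ∀ m, e m = true ↔ Escapes b (conf b r m)

/-! ### Decomposition at the first vertex -/

/-- The subtree (or subconfiguration) at the `i`-th child. -/
def sub (b : List ℕ → ℕ) (i : ℕ) : List ℕ → ℕ := fun w => b (i :: w)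

/-- Replace the rotor at the first vertex by `i` and the subconfiguration at `i` by `s`. -/
def glue (r : List ℕ → ℕ) (i : ℕ) (s : List ℕ → ℕ) : List ℕ → ℕ
  | [] => i
  | j :: w => if j = i then s w else r (j :: w)

lemma glue_sub (r : List ℕ → ℕ) (i : ℕ) : glue r i (sub r i) = Function.update r [] i := by
  funext w
  cases w with
  | nil => simp [glue]
  | cons j w =>
    rw [Function.update_of_ne (by simp)]
    simp only [glue, sub]
    split_ifs with h
    · rw [h]
    · rfl

lemma glue_update (r : List ℕ → ℕ) (i : ℕ) (s : List ℕ → ℕ) (w : List ℕ) (k : ℕ) :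
    glue r i (Function.update s w k) = Function.update (glue r i s) (i :: w) k := by
  funext v
  cases v with
  | nil => rw [Function.update_of_ne (by simp)]; rfl
  | cons j v =>
    by_cases h : j = i
    · subst h
      by_cases h2 : v = w
      · subst h2; simp [glue]
      · rw [Function.update_of_ne (by simpa using h2)]
        simp [glue, Function.update_of_ne h2]
    · rw [Function.update_of_ne (by simp [h])]
      simp [glue, h]

/-- Embedding of the states of the walk on a subtree. -/
def emb (r : List ℕ → ℕ) (i : ℕ) (x : Option (List ℕ) × (List ℕ → ℕ)) :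
    Option (List ℕ) × (List ℕ → ℕ) :=
  (some (match x.1 with
    | none => []
    | some w => i :: w), glue r i x.2)

lemma step_emb (b r : List ℕ → ℕ) (i : ℕ) (w : List ℕ) (s : List ℕ → ℕ) :
    step b (emb r i (some w, s)) = emb r i (step (sub b i) (some w, s)) := by
  have h1 : glue r i s (i :: w) = s w := by simp [glue]
  simp only [emb, step, h1, glue_update]
  have h2 : sub b i w = b (i :: w) := rfl
  rw [h2]
  congr 1
  split_ifs with h
  · unfold parent
    rw [if_neg (by simp)]
    by_cases hw : w = []
    · subst hw; simp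
    · rw [if_neg hw]
      simp [List.dropLast_cons_of_ne_nil hw]
  · simp

lemma traj_succ (b r : List ℕ → ℕ) (n : ℕ) : traj b r (n + 1) = step b (traj b r n) := by
  unfold traj
  rw [Function.iterate_succ_apply']

lemma traj_emb {b r : List ℕ → ℕ} (hk : r [] < b []) (n : ℕ)
    (hn : ∀ m < n, (traj (sub b (r [] + 1)) (sub r (r [] + 1)) m).1 ≠ none) :
    traj b r (n + 1) = emb r (r [] + 1) (traj (sub b (r [] + 1)) (sub r (r [] + 1)) n) := by
  induction n with
  | zero =>
    rw [traj_succ]
    simp only [traj, Function.iterate_zero, id_eq, emb, glue_sub]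
    have h1 : (r [] + 1) % (b [] + 1) = r [] + 1 := Nat.mod_eq_of_lt (by omega)
    simp [step, h1]
  | succ n ih =>
    rw [traj_succ, ih fun m hm => hn m (hm.trans n.lt_succ_self), traj_succ]
    have h1 := hn n n.lt_succ_self
    obtain ⟨w, hw⟩ := Option.ne_none_iff_exists'.1 h1
    have h2 : traj (sub b (r [] + 1)) (sub r (r [] + 1)) n =
        (some w, (traj (sub b (r [] + 1)) (sub r (r [] + 1)) n).2) := by
      rw [← hw]
    rw [h2, step_emb]

lemma traj_none {b r : List ℕ → ℕ} {n : ℕ} (h : (traj b r n).1 = none) (m : ℕ) :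
    traj b r (n + m) = traj b r n := by
  induction m with
  | zero => rfl
  | succ m ih =>
    rw [← add_assoc, traj_succ, ih]
    have : traj b r n = (none, (traj b r n).2) := by rw [← h]
    rw [this]; rfl

lemma final_shift {b r b' r' : List ℕ → ℕ} {w w' : List ℕ} (N : ℕ)
    (h : ∀ n, (traj b r (n + N)).2 w = (traj b' r' n).2 w') :
    final b r w = final b' r' w' := by
  unfold final limUnder
  congr 1
  conv_lhs => rw [← map_add_atTop_eq_nat N]
  rw [map_map]
  congr 1
  funext n
  exact h n

lemma final_const {b r : List ℕ → ℕ} {w : List ℕ} {c : ℕ} (N : ℕ)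
    (h : ∀ n, (traj b r (n + N)).2 w = c) : final b r w = c := by
  unfold final
  refine Tendsto.limUnder_eq (tendsto_const_nhds.congr' ?_)
  filter_upwards [eventually_ge_atTop N] with n hn
  rw [← h (n - N), Nat.sub_add_cancel hn]

lemma decomp_R {b r : List ℕ → ℕ} (h : r [] = b []) :
    ¬ Escapes b r ∧ final b r = Function.update r [] 0 := by
  have h1 : traj b r 1 = (none, Function.update r [] 0) := by
    rw [traj_succ]
    simp [traj, step, h, parent]
  refine ⟨fun hcon => hcon 1 (by rw [h1]), ?_⟩
  funext w
  refine final_const 1 fun n => ?_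
  rw [add_comm, traj_none (by rw [h1]), h1]

lemma decomp_E {b r : List ℕ → ℕ} (hk : r [] < b [])
    (he : Escapes (sub b (r [] + 1)) (sub r (r [] + 1))) :
    Escapes b r ∧
      final b r = glue r (r [] + 1) (final (sub b (r [] + 1)) (sub r (r [] + 1))) := by
  have h1 : ∀ n, traj b r (n + 1) =
      emb r (r [] + 1) (traj (sub b (r [] + 1)) (sub r (r [] + 1)) n) := fun n =>
    traj_emb hk n fun m _ => he m
  constructor
  · intro n
    cases n with
    | zero => simp [traj]
    | succ n => rw [h1]; simp [emb]
  · funext w
    cases w with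
    | nil =>
      refine final_const 1 fun n => ?_
      rw [h1]; rfl
    | cons j w =>
      by_cases hj : j = r [] + 1
      · subst hj
        simp only [glue, if_true]
        refine final_shift 1 fun n => ?_
        rw [h1]
        simp [emb, glue]
      · simp only [glue, if_neg hj]
        refine final_const 1 fun n => ?_
        rw [h1]
        simp [emb, glue, hj]

lemma decomp_N {b r : List ℕ → ℕ} (hk : r [] < b [])
    (he : ¬ Escapes (sub b (r [] + 1)) (sub r (r [] + 1))) :
    (Escapes b r ↔ Escapes b (glue r (r [] + 1) (final (sub b (r [] + 1)) (sub r (r [] + 1))))) ∧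
      final b r = final b (glue r (r [] + 1) (final (sub b (r [] + 1)) (sub r (r [] + 1)))) := by
  classical
  unfold Escapes at he
  push Not at he
  set N := Nat.find he with hN
  have hN1 : (traj (sub b (r [] + 1)) (sub r (r [] + 1)) N).1 = none := Nat.find_spec he
  have hN2 : ∀ m < N, (traj (sub b (r [] + 1)) (sub r (r [] + 1)) m).1 ≠ none :=
    fun m hm => Nat.find_min he hm
  have hfin : final (sub b (r [] + 1)) (sub r (r [] + 1)) =
      (traj (sub b (r [] + 1)) (sub r (r [] + 1)) N).2 := by
    funext w
    refine final_const N fun n => ?_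
    rw [Nat.add_comm n N, traj_none hN1]
  have h1 : ∀ n ≤ N, traj b r (n + 1) =
      emb r (r [] + 1) (traj (sub b (r [] + 1)) (sub r (r [] + 1)) n) := fun n hn =>
    traj_emb hk n fun m hm => hN2 m (hm.trans_le hn)
  have h2 : traj b r (N + 1) =
      (some [], glue r (r [] + 1) (final (sub b (r [] + 1)) (sub r (r [] + 1)))) := by
    rw [h1 N le_rfl, hfin]
    simp [emb, hN1]
  have h3 : ∀ n, traj b r (n + (N + 1)) =
      traj b (glue r (r [] + 1) (final (sub b (r [] + 1)) (sub r (r [] + 1)))) n := by
    intro n
    unfold traj at h2 ⊢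
    rw [Function.iterate_add_apply, h2]
  constructor
  · constructor
    · intro h n
      rw [← h3]; exact h _
    · intro h n
      by_cases hn : n < N + 1
      · cases n with
        | zero => simp [traj]
        | succ n => rw [h1 n (by omega)]; simp [emb]
      · obtain ⟨m, rfl⟩ : ∃ m, n = m + (N + 1) := ⟨n - (N + 1), by omega⟩
        rw [h3]; exact h m
  · funext w
    exact final_shift (N + 1) fun n => by rw [h3]

/-! ### The stream of events at the first vertex -/

/-- The number of visits to the child `i` during the first `s` advances of the rotor. -/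
def vis (k B i s : ℕ) : ℕ := Nat.count (fun s' => (k + s' + 1) % B = i) s

/-- The configuration after `s` advances of the first rotor. -/
noncomputable def G (b r : List ℕ → ℕ) (s : ℕ) : List ℕ → ℕ
  | [] => (r [] + s) % (b [] + 1)
  | i :: w => conf (sub b i) (sub r i) (if i = 0 then 0 else vis (r []) (b [] + 1) i s) w

/-- The event number `s` ends the run of a particle. -/
def Ends (b r : List ℕ → ℕ) (s : ℕ) : Prop :=
  (r [] + s + 1) % (b [] + 1) = 0 ∨
    Escapes (sub b ((r [] + s + 1) % (b [] + 1)))
      (conf (sub b ((r [] + s + 1) % (b [] + 1))) (sub r ((r [] + s + 1) % (b [] + 1)))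
        (vis (r []) (b [] + 1) ((r [] + s + 1) % (b [] + 1)) s))

lemma vis_succ (k B i s : ℕ) : vis k B i (s + 1) =
    vis k B i s + if (k + s + 1) % B = i then 1 else 0 := by
  unfold vis
  rw [Nat.count_succ]

lemma sub_G (b r : List ℕ → ℕ) (s : ℕ) {i : ℕ} (hi : i ≠ 0) :
    sub (G b r s) i = conf (sub b i) (sub r i) (vis (r []) (b [] + 1) i s) := by
  funext w
  simp [sub, G, hi]

lemma G_zero {b r : List ℕ → ℕ} (h : r [] ≤ b []) : G b r 0 = r := by
  funext w
  cases w with
  | nil => simp only [G, add_zero]; exact Nat.mod_eq_of_lt (by omega)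
  | cons i w => simp [G, vis, conf, sub]

lemma G_succ_R {b r : List ℕ → ℕ} {s : ℕ} (h : (r [] + s + 1) % (b [] + 1) = 0) :
    Function.update (G b r s) [] 0 = G b r (s + 1) := by
  funext w
  cases w with
  | nil => simp [G, ← add_assoc, h]
  | cons i w =>
    rw [Function.update_of_ne (by simp)]
    simp only [G]
    by_cases hi : i = 0
    · simp [hi]
    · rw [if_neg hi, if_neg hi, vis_succ, h, if_neg (Ne.symm hi), add_zero]

lemma G_succ_child {b r : List ℕ → ℕ} {s i : ℕ} (h : (r [] + s + 1) % (b [] + 1) = i)
    (hi : i ≠ 0) :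
    glue (G b r s) i (final (sub b i) (sub (G b r s) i)) = G b r (s + 1) := by
  funext w
  cases w with
  | nil => simp [G, glue, ← add_assoc, h]
  | cons j w =>
    by_cases hj : j = i
    · subst hj
      simp only [glue, if_true, G, if_neg hi]
      rw [sub_G b r s hi, vis_succ, h, if_pos rfl]
      rfl
    · simp only [glue, if_neg hj, G]
      rw [vis_succ, h, if_neg (Ne.symm hj), add_zero]

lemma mod_cases {x B : ℕ} :
    (x % (B + 1) = B ∧ (x + 1) % (B + 1) = 0) ∨
      (x % (B + 1) < B ∧ (x + 1) % (B + 1) = x % (B + 1) + 1) := by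
  have h1 : x % (B + 1) < B + 1 := Nat.mod_lt _ (Nat.succ_pos _)
  rcases Nat.lt_or_ge (x % (B + 1)) B with h2 | h2
  · right
    refine ⟨h2, ?_⟩
    rw [Nat.add_mod, Nat.mod_eq_of_lt (show 1 < B + 1 by omega),
      Nat.mod_eq_of_lt (show x % (B + 1) + 1 < B + 1 by omega)]
  · left
    have h3 : x % (B + 1) = B := by omega
    refine ⟨h3, ?_⟩
    rw [← Nat.mod_add_mod, h3, Nat.mod_self]

open Classical in
lemma inv {b r : List ℕ → ℕ} (h : r [] ≤ b []) (s : ℕ) :
    (Escapes b (conf b r (Nat.count (Ends b r) s)) ↔ Escapes b (G b r s)) ∧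
      final b (conf b r (Nat.count (Ends b r) s)) = final b (G b r s) := by
  induction s with
  | zero => simp [G_zero h, conf]
  | succ s ih =>
    rw [Nat.count_succ]
    rcases mod_cases (x := r [] + s) (B := b []) with ⟨h1, h2⟩ | ⟨h1, h2⟩
    · have he : Ends b r s := Or.inl h2
      rw [if_pos he]
      have h3 := decomp_R (b := b) (r := G b r s) h1
      have h4 : conf b r (Nat.count (Ends b r) s + 1) = G b r (s + 1) := by
        change final b (conf b r (Nat.count (Ends b r) s)) = _
        rw [ih.2, h3.2, G_succ_R h2]
      rw [h4]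
      exact ⟨Iff.rfl, rfl⟩
    · have hk : G b r s [] < b [] := h1
      have hi : G b r s [] + 1 = (r [] + s + 1) % (b [] + 1) := h2.symm
      have hi0 : (r [] + s + 1) % (b [] + 1) ≠ 0 := by omega
      by_cases hesc : Escapes (sub b (G b r s [] + 1)) (sub (G b r s) (G b r s [] + 1))
      · have he : Ends b r s := by
          right
          rw [hi, sub_G b r s hi0] at hesc
          exact hesc
        rw [if_pos he]
        have h3 := decomp_E hk hesc
        have h4 : conf b r (Nat.count (Ends b r) s + 1) = G b r (s + 1) := by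
          change final b (conf b r (Nat.count (Ends b r) s)) = _
          rw [ih.2, h3.2, hi, G_succ_child rfl hi0]
        rw [h4]
        exact ⟨Iff.rfl, rfl⟩
      · have he : ¬ Ends b r s := by
          rintro (h5 | h5)
          · exact hi0 h5
          · rw [hi, sub_G b r s hi0] at hesc
            exact hesc h5
        rw [if_neg he, add_zero]
        have h3 := decomp_N hk hesc
        rw [hi, G_succ_child rfl hi0] at h3
        exact ⟨ih.1.trans h3.1, ih.2.trans h3.2⟩

open Classical in
lemma outcome {b r : List ℕ → ℕ} (h : r [] ≤ b []) {s : ℕ} (hs : Ends b r s) :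
    Escapes b (conf b r (Nat.count (Ends b r) s)) ↔ (r [] + s + 1) % (b [] + 1) ≠ 0 := by
  rw [(inv h s).1]
  rcases mod_cases (x := r [] + s) (B := b []) with ⟨h1, h2⟩ | ⟨h1, h2⟩
  · have h3 := decomp_R (b := b) (r := G b r s) h1
    rw [h2]
    simp [h3.1]
  · have hk : G b r s [] < b [] := h1
    have hi : G b r s [] + 1 = (r [] + s + 1) % (b [] + 1) := h2.symm
    have hi0 : (r [] + s + 1) % (b [] + 1) ≠ 0 := by omega
    refine ⟨fun _ => hi0, fun _ => ?_⟩
    refine (decomp_E hk ?_).1
    rw [hi, sub_G b r s hi0]
    exact hs.resolve_left hi0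

lemma vis_eq {k b0 i s : ℕ} (hk : k ≤ b0) (hi1 : 1 ≤ i) (hi2 : i ≤ b0) :
    vis k (b0 + 1) i s + (if i ≤ k then 1 else 0) = (k + s + (b0 + 1 - i)) / (b0 + 1) := by
  induction s with
  | zero =>
    have h0 : vis k (b0 + 1) i 0 = 0 := by simp [vis]
    rw [h0, zero_add, add_zero]
    split_ifs with h
    · symm
      rw [Nat.div_eq_iff (by omega)]
      omega
    · symm
      rw [Nat.div_eq_zero_iff]
      right; omega
  | succ s ih =>
    rw [vis_succ]
    have h1 : k + (s + 1) + (b0 + 1 - i) = (k + s + (b0 + 1 - i)) + 1 := by omega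
    rw [h1, Nat.succ_div]
    have h2 : (k + s + 1) % (b0 + 1) = i ↔ b0 + 1 ∣ k + s + (b0 + 1 - i) + 1 := by
      rw [show k + s + (b0 + 1 - i) + 1 = (k + s + 1) + (b0 + 1 - i) by omega]
      constructor
      · intro h
        rw [Nat.dvd_iff_mod_eq_zero, Nat.add_mod, h]
        rw [Nat.mod_eq_of_lt (show b0 + 1 - i < b0 + 1 by omega)]
        rw [show i + (b0 + 1 - i) = b0 + 1 by omega, Nat.mod_self]
      · intro h
        have h3 := Nat.mod_lt (k + s + 1) (show 0 < b0 + 1 by omega)
        rw [Nat.dvd_iff_mod_eq_zero, Nat.add_mod,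
          Nat.mod_eq_of_lt (show b0 + 1 - i < b0 + 1 by omega)] at h
        have h4 := Nat.dvd_of_mod_eq_zero h
        obtain ⟨c, hc⟩ := h4
        have h5 : c = 1 := by
          have : c * (b0 + 1) < 2 * (b0 + 1) := by
            rw [mul_comm] at hc; omega
          have h6 : c < 2 := Nat.lt_of_mul_lt_mul_right this
          rcases Nat.eq_zero_or_pos c with h7 | h7
          · subst h7; omega
          · omega
        subst h5
        omega
    split_ifs at ih ⊢ <;> omega

/-- Visit numbers in terms of absolute time. -/
lemma vis_abs {k b0 i s : ℕ} (hk : k ≤ b0) (hi1 : 1 ≤ i) (hS : (k + s + 1) % (b0 + 1) = i) :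
    vis k (b0 + 1) i s = (k + s + 1) / (b0 + 1) - (if i ≤ k then 1 else 0) := by
  have hi2 : i ≤ b0 := by
    have := Nat.mod_lt (k + s + 1) (show 0 < b0 + 1 by omega)
    omega
  have h1 := vis_eq (s := s) hk hi1 hi2
  have h2 : (k + s + (b0 + 1 - i)) / (b0 + 1) = (k + s + 1) / (b0 + 1) := by
    have h3 := Nat.div_add_mod (k + s + 1) (b0 + 1)
    rw [hS] at h3
    rw [Nat.div_eq_iff (by omega)]
    set q := (k + s + 1) / (b0 + 1)
    have h4 : q * (b0 + 1) = (b0 + 1) * q := mul_comm _ _
    rw [h4]
    generalize (b0 + 1) * q = p at *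
    omega
  rw [h2] at h1
  omega

/-! ### Abstract event structures -/

/-- The event times `τ` of a stream with first rotor position `k` and child sequences `a`. -/
structure Gen (B k : ℕ) (a : ℕ → ℕ → Bool) (e : ℕ → Bool) (τ : ℕ → ℕ) : Prop where
  mono : StrictMono τ
  hkB : k < B
  start : k < τ 0
  one : ∀ m, e m = true →
    τ m % B ≠ 0 ∧ a (τ m % B) (τ m / B - if τ m % B ≤ k then 1 else 0) = true
  zero : ∀ m, e m = false → τ m % B = 0
  surj : ∀ S, k < S → (S % B = 0 ∨ a (S % B) (S / B - if S % B ≤ k then 1 else 0) = true) →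
    ∃ m, τ m = S

/-- The actual escape sequence. -/
noncomputable def esc (b r : List ℕ → ℕ) (m : ℕ) : Bool := by
  classical exact decide (Escapes b (conf b r m))

lemma esc_iff (b r : List ℕ → ℕ) (m : ℕ) : esc b r m = true ↔ Escapes b (conf b r m) := by
  simp [esc]

lemma ends_infinite {b r : List ℕ → ℕ} (h : r [] ≤ b []) : (setOf (Ends b r)).Infinite := by
  refine Set.infinite_of_forall_exists_gt fun n => ?_
  refine ⟨(n + 2) * (b [] + 1) - r [] - 1, ?_, ?_⟩
  · left
    have h1 : r [] + 1 ≤ (n + 2) * (b [] + 1) := by nlinarith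
    have h2 : r [] + ((n + 2) * (b [] + 1) - r [] - 1) + 1 = (n + 2) * (b [] + 1) := by omega
    rw [h2, Nat.mul_mod_left]
  · have h3 : (n + 2) * (b [] + 1) = (n + 1) * (b [] + 1) + (b [] + 1) := by ring
    have h4 : n + 1 ≤ (n + 1) * (b [] + 1) := Nat.le_mul_of_pos_right _ (Nat.succ_pos _)
    omega

open Classical in
lemma gen_actual {b r : List ℕ → ℕ} (h : r [] ≤ b []) :
    Gen (b [] + 1) (r []) (fun i t => esc (sub b i) (sub r i) t) (esc b r)
      (fun m => r [] + Nat.nth (Ends b r) m + 1) := by
  have hinf := ends_infinite h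
  have hcount : ∀ m, Nat.count (Ends b r) (Nat.nth (Ends b r) m) = m := fun m =>
    Nat.count_nth_of_infinite hinf m
  have hout : ∀ m, Escapes b (conf b r m) ↔
      (r [] + Nat.nth (Ends b r) m + 1) % (b [] + 1) ≠ 0 := by
    intro m
    have := outcome h (Nat.nth_mem_of_infinite hinf m)
    rwa [hcount] at this
  refine ⟨?_, by omega, by omega, ?_, ?_, ?_⟩
  · intro m n hmn
    have := Nat.nth_strictMono hinf hmn
    change r [] + Nat.nth (Ends b r) m + 1 < r [] + Nat.nth (Ends b r) n + 1
    omega
  · intro m hm
    rw [esc_iff, hout] at hm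
    refine ⟨hm, ?_⟩
    have h1 := (Nat.nth_mem_of_infinite hinf m).resolve_left hm
    rw [esc_iff, ← vis_abs h (Nat.one_le_iff_ne_zero.2 hm) rfl]
    exact h1
  · intro m hm
    have : ¬ Escapes b (conf b r m) := by
      rw [← esc_iff, hm]; simp
    rw [hout] at this
    exact not_not.1 this
  · intro S hS hS2
    obtain ⟨s, rfl⟩ : ∃ s, S = r [] + s + 1 := ⟨S - r [] - 1, by omega⟩
    have hend : Ends b r s := by
      rcases Nat.eq_zero_or_pos ((r [] + s + 1) % (b [] + 1)) with h0 | h0
      · exact Or.inl h0
      · have h1 := hS2.resolve_left h0.ne'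
        right
        rw [esc_iff, ← vis_abs h h0 rfl] at h1
        exact h1
    refine ⟨Nat.count (Ends b r) s, ?_⟩
    rw [Nat.nth_count hend]

/-- The number of zeros before a position. -/
def zc (e : ℕ → Bool) (m : ℕ) : ℕ := Nat.count (fun j => e j = false) m

/-- The number of ones before a position. -/
def oc (e : ℕ → Bool) (m : ℕ) : ℕ := Nat.count (fun j => e j = true) m

lemma zc_succ (e : ℕ → Bool) (m : ℕ) : zc e (m + 1) = zc e m + if e m = false then 1 else 0 := by
  unfold zc; rw [Nat.count_succ]

lemma oc_succ (e : ℕ → Bool) (m : ℕ) : oc e (m + 1) = oc e m + if e m = true then 1 else 0 := by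
  unfold oc; rw [Nat.count_succ]

lemma oc_add_zc (e : ℕ → Bool) (m : ℕ) : oc e m + zc e m = m := by
  induction m with
  | zero => simp [oc, zc]
  | succ m ih =>
    rw [oc_succ, zc_succ]
    cases e m <;> simp <;> omega

lemma zc_eq {B k : ℕ} {a : ℕ → ℕ → Bool} {e : ℕ → Bool} {τ : ℕ → ℕ} (h : Gen B k a e τ) (m : ℕ) :
    zc e m = (τ m - 1) / B := by
  have hB : 0 < B := by have := h.hkB; omega
  have hno : ∀ m S, τ m < S → S % B = 0 → S < τ (m + 1) → False := by
    intro m S h1 h2 h3
    have h4 : k < S := lt_of_lt_of_le h.start ((h.mono.monotone (Nat.zero_le m)).trans h1.le)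
    obtain ⟨j, hj⟩ := h.surj S h4 (Or.inl h2)
    rw [← hj] at h1 h3
    have h5 := h.mono.lt_iff_lt.1 h1
    have h6 := h.mono.lt_iff_lt.1 h3
    omega
  induction m with
  | zero =>
    have h1 : τ 0 ≤ B := by
      by_contra hcon
      push Not at hcon
      obtain ⟨j, hj⟩ := h.surj B h.hkB (Or.inl (Nat.mod_self B))
      have := h.mono.monotone (Nat.zero_le j)
      omega
    have h2 := h.start
    simp only [zc, Nat.count_zero]
    symm
    rw [Nat.div_eq_zero_iff]
    right; omega
  | succ m ih =>
    have h0 : τ m < τ (m + 1) := h.mono m.lt_succ_self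
    have hpos : 0 < τ m := by
      have := h.mono.monotone (Nat.zero_le m)
      have := h.start
      omega
    set q := (τ m - 1) / B with hq
    have hq1 : q * B ≤ τ m - 1 := Nat.div_mul_le_self _ _
    have hq2 : τ m - 1 < (q + 1) * B := by
      rw [hq, mul_comm]; exact Nat.lt_mul_div_succ _ hB
    have e1 : (q + 1) * B = q * B + B := by ring
    have e2 : (q + 2) * B = q * B + B + B := by ring
    rw [zc_succ, ih]
    cases hem : e m with
    | false =>
      have h1 := h.zero m hem
      have h2 : τ m = (q + 1) * B := by
        obtain ⟨c, hc⟩ := Nat.dvd_of_mod_eq_zero h1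
        have h3 : q < c := by
          by_contra hcon
          push Not at hcon
          have : B * c ≤ q * B := by rw [mul_comm q B]; exact Nat.mul_le_mul_left _ hcon
          omega
        have h4 : c < q + 2 := by
          by_contra hcon
          push Not at hcon
          have : (q + 2) * B ≤ B * c := by rw [mul_comm B c]; exact Nat.mul_le_mul_right _ hcon
          omega
        have h5 : c = q + 1 := by omega
        rw [hc, h5, mul_comm]
      simp only [if_true]
      symm
      rw [Nat.div_eq_iff hB]
      have h3 : τ (m + 1) ≤ (q + 2) * B := by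
        by_contra hcon
        push Not at hcon
        exact hno m ((q + 2) * B) (by omega) (Nat.mul_mod_left _ _) hcon
      omega
    | true =>
      have h1 := (h.one m hem).1
      have h2 : τ m < (q + 1) * B := by
        rcases Nat.lt_or_ge (τ m) ((q + 1) * B) with h3 | h3
        · exact h3
        · exfalso
          have h4 : τ m = (q + 1) * B := by omega
          rw [h4, Nat.mul_mod_left] at h1
          exact h1 rfl
      simp only [Bool.true_eq_false, if_false, add_zero]
      symm
      rw [Nat.div_eq_iff hB]
      have h3 : τ (m + 1) ≤ (q + 1) * B := by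
        by_contra hcon
        push Not at hcon
        exact hno m ((q + 1) * B) h2 (Nat.mul_mod_left _ _) hcon
      omega

lemma one_div {B k : ℕ} {a : ℕ → ℕ → Bool} {e : ℕ → Bool} {τ : ℕ → ℕ} (h : Gen B k a e τ) {m : ℕ}
    (hm : e m = true) : τ m / B = zc e m := by
  rw [zc_eq h]
  have hB : 0 < B := by have := h.hkB; omega
  have h1 := (h.one m hm).1
  have h2 := Nat.div_add_mod (τ m) B
  have h3 := Nat.mod_lt (τ m) hB
  symm
  rw [Nat.div_eq_iff hB]
  have h4 : τ m / B * B = B * (τ m / B) := mul_comm _ _
  generalize τ m / B = q at *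
  rw [h4]
  generalize B * q = p at *
  omega

/-- Domination of escape sequences: the ones of `g` can be matched with ones of `e` in an
increasing way that does not increase gaps. -/
def Dom (g e : ℕ → Bool) : Prop :=
  ∃ φ : ℕ → ℕ, (∀ n, g n = true → e (φ n) = true) ∧
    ∀ n m, n < m → g n = true → g m = true → φ n < φ m ∧ φ m - φ n ≤ m - n

lemma oc_le {g e : ℕ → Bool} {φ : ℕ → ℕ} (h1 : ∀ n, g n = true → e (φ n) = true)
    (h2 : ∀ n m, n < m → g n = true → g m = true → φ n < φ m ∧ φ m - φ n ≤ m - n) {x y : ℕ}
    (hxy : x < y) (hx : g x = true) (hy : g y = true) :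
    oc g y - oc g x ≤ oc e (φ y) - oc e (φ x) := by
  have hφ := (h2 x y hxy hx hy).1
  obtain ⟨d, rfl⟩ : ∃ d, y = x + d := ⟨y - x, by omega⟩
  obtain ⟨d', hd'⟩ : ∃ d', φ (x + d) = φ x + d' := ⟨φ (x + d) - φ x, by omega⟩
  unfold oc
  rw [hd', Nat.count_add, Nat.count_add, Nat.add_sub_cancel_left, Nat.add_sub_cancel_left,
    Nat.count_eq_card_filter_range, Nat.count_eq_card_filter_range]
  have hle : ∀ j, g (x + j) = true → φ x ≤ φ (x + j) := by
    intro j hj
    rcases Nat.eq_zero_or_pos j with h | h
    · rw [h, add_zero]
    · exact (h2 x (x + j) (by omega) hx hj).1.le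
  refine Finset.card_le_card_of_injOn (fun j => φ (x + j) - φ x) ?_ ?_
  · intro j hj
    simp only [Finset.coe_filter, Finset.mem_range, Set.mem_setOf_eq] at hj ⊢
    have h3 := hle j hj.2
    have h4 := (h2 (x + j) (x + d) (by omega) hj.2 hy).1
    refine ⟨by omega, ?_⟩
    rw [show φ x + (φ (x + j) - φ x) = φ (x + j) by omega]
    exact h1 _ hj.2
  · intro i hi j hj hij
    simp only [Finset.coe_filter, Finset.mem_range, Set.mem_setOf_eq] at hi hj hij
    have h3 := hle i hi.2
    have h4 := hle j hj.2
    rcases lt_trichotomy i j with h | h | h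
    · have := (h2 (x + i) (x + j) (by omega) hi.2 hj.2).1
      omega
    · exact h
    · have := (h2 (x + j) (x + i) (by omega) hj.2 hi.2).1
      omega

lemma match_lemma {B k : ℕ} {a : ℕ → ℕ → Bool} {e : ℕ → Bool} {τ : ℕ → ℕ} (h : Gen B k a e τ)
    {g : ℕ → Bool} (hd : Dom g e) :
    ∃ (k' : ℕ) (a' : ℕ → ℕ → Bool) (τ' : ℕ → ℕ), Gen B k' a' g τ' ∧ (∀ i, Dom (a' i) (a i)) ∧
      (g 0 = false → k' + 1 = B) ∧ (g 0 = true → k' + 1 < B ∧ a' (k' + 1) 0 = true) := by
  classical
  obtain ⟨φ, hφ1, hφ2⟩ := hd
  have hB : 0 < B := by have := h.hkB; omega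
  set c : ℕ → ℕ := fun n => τ (φ n) % B with hc
  set z : ℕ → ℕ := zc g with hz
  set k' : ℕ := if g 0 = true then c 0 - 1 else B - 1 with hk'
  set τ' : ℕ → ℕ := fun n => if g n = true then z n * B + c n else (z n + 1) * B with hτ'
  set a' : ℕ → ℕ → Bool := fun i t =>
    decide (∃ n, g n = true ∧ c n = i ∧ t + (if i ≤ k' then 1 else 0) = z n) with ha'
  have hcB : ∀ n, g n = true → 1 ≤ c n ∧ c n < B := by
    intro n hn
    have h1 := (h.one (φ n) (hφ1 n hn)).1
    exact ⟨Nat.one_le_iff_ne_zero.2 h1, Nat.mod_lt _ hB⟩
  have hdiv : ∀ n, g n = true → τ (φ n) = zc e (φ n) * B + c n := by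
    intro n hn
    have h1 := one_div h (hφ1 n hn)
    rw [← h1, mul_comm]
    exact (Nat.div_add_mod _ _).symm
  have hτt : ∀ n, g n = true → τ' n = z n * B + c n := fun n hn => by simp only [hτ', if_pos hn]
  have hτf : ∀ n, g n = false → τ' n = (z n + 1) * B := fun n hn => by
    simp only [hτ', hn, Bool.false_eq_true, if_false]
  have hzt : ∀ n, g n = true → z (n + 1) = z n := fun n hn => by
    rw [hz, zc_succ, hn]; simp
  have hzf : ∀ n, g n = false → z (n + 1) = z n + 1 := fun n hn => by
    rw [hz, zc_succ, hn]; simp
  have hmono : StrictMono τ' := by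
    refine strictMono_nat_of_lt_succ fun n => ?_
    cases hn : g n with
    | false =>
      rw [hτf n hn]
      cases hn1 : g (n + 1) with
      | false => rw [hτf _ hn1, hzf n hn]; nlinarith
      | true =>
        rw [hτt _ hn1, hzf n hn]
        have := (hcB _ hn1).1
        omega
    | true =>
      rw [hτt n hn]
      cases hn1 : g (n + 1) with
      | false =>
        rw [hτf _ hn1, hzt n hn]
        have := (hcB _ hn).2
        nlinarith
      | true =>
        rw [hτt _ hn1, hzt n hn]
        obtain ⟨h1, h2⟩ := hφ2 n (n + 1) n.lt_succ_self hn hn1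
        have h3 : φ (n + 1) = φ n + 1 := by omega
        have h4 := h.mono h1
        have h5 : zc e (φ (n + 1)) = zc e (φ n) := by
          rw [h3, zc_succ, hφ1 n hn]; simp
        rw [hdiv n hn, hdiv (n + 1) hn1, h5] at h4
        omega
  have hk'B : k' < B := by
    rw [hk']
    split_ifs with h0
    · have := hcB 0 h0; omega
    · omega
  have hz0 : z 0 = 0 := by simp [hz, zc]
  have hstart : k' < τ' 0 := by
    cases h0 : g 0 with
    | false => rw [hτf 0 h0, hz0]; omega
    | true =>
      rw [hτt 0 h0, hz0, hk', if_pos h0]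
      have := hcB 0 h0
      omega
  -- visit numbers are well defined
  have hzpos : ∀ n, g n = true → c n ≤ k' → 1 ≤ z n := by
    intro n hn hcn
    by_contra hcon
    have h1 : z n = 0 := by omega
    have h2 := hτt n hn
    have h3 := hmono.monotone (Nat.zero_le n)
    rw [h1] at h2
    omega
  have hmod : ∀ n, g n = true → τ' n % B = c n ∧ τ' n / B = z n := by
    intro n hn
    have h1 := (hcB n hn).2
    rw [hτt n hn]
    constructor
    · rw [Nat.mul_comm, Nat.mul_add_mod, Nat.mod_eq_of_lt h1]
    · rw [Nat.div_eq_iff hB]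
      omega
  have hunb : ∀ q, ∃ n, g n = false ∧ z n = q := by
    intro q
    -- the count of zeros is unbounded
    have h1 : ∃ n, q < z n := by
      refine ⟨(q + 2) * B, ?_⟩
      by_contra hcon
      push Not at hcon
      have h2 : (q + 2) * B ≤ τ' ((q + 2) * B) := hmono.le_apply
      have h3 : τ' ((q + 2) * B) < (z ((q + 2) * B) + 1) * B + 1 := by
        cases hn : g ((q + 2) * B) with
        | false => rw [hτf _ hn]; omega
        | true =>
          rw [hτt _ hn]
          have := (hcB _ hn).2
          nlinarith
      have h4 : (z ((q + 2) * B) + 1) * B ≤ (q + 1) * B := Nat.mul_le_mul_right _ (by omega)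
      have h5 : (q + 2) * B = (q + 1) * B + B := by ring
      omega
    set n := Nat.find h1 with hn
    have h2 : q < z n := Nat.find_spec h1
    have h3 : n ≠ 0 := by
      intro h0; rw [h0, hz0] at h2; omega
    obtain ⟨m, hm⟩ := Nat.exists_eq_succ_of_ne_zero h3
    have h4 : ¬ q < z m := Nat.find_min h1 (by omega)
    rw [hm] at h2
    cases hg : g m with
    | false =>
      have := hzf m hg
      exact ⟨m, hg, by have : z m.succ = z m + 1 := this; omega⟩
    | true =>
      have := hzt m hg
      have : z m.succ = z m := this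
      omega
  have hgen : Gen B k' a' g τ' := by
    refine ⟨hmono, hk'B, hstart, ?_, ?_, ?_⟩
    · intro n hn
      obtain ⟨h1, h2⟩ := hmod n hn
      rw [h1, h2]
      refine ⟨by have := hcB n hn; omega, ?_⟩
      simp only [ha', decide_eq_true_eq]
      refine ⟨n, hn, rfl, ?_⟩
      split_ifs with h3
      · have := hzpos n hn h3; omega
      · omega
    · intro n hn
      rw [hτf n hn, Nat.mul_mod_left]
    · intro S hS hS2
      by_cases h0 : S % B = 0
      · obtain ⟨q, hq⟩ := Nat.dvd_of_mod_eq_zero h0
        have hq0 : q ≠ 0 := by rintro rfl; omega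
        obtain ⟨n, hn, hzn⟩ := hunb (q - 1)
        refine ⟨n, ?_⟩
        rw [hτf n hn, hzn, hq, mul_comm]
        congr 1; omega
      · have h1 := hS2.resolve_left h0
        simp only [ha', decide_eq_true_eq] at h1
        obtain ⟨n, hn, hcn, hzn⟩ := h1
        refine ⟨n, ?_⟩
        have h2 := Nat.div_add_mod S B
        have h3 : (if S % B ≤ k' then 1 else 0) ≤ S / B := by
          split_ifs with h4
          · rcases Nat.eq_zero_or_pos (S / B) with h5 | h5
            · rw [h5, mul_zero, zero_add] at h2; omega
            · exact h5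
          · exact Nat.zero_le _
        have h4 : z n = S / B := by omega
        rw [hτt n hn, h4, hcn, mul_comm]
        exact h2
  refine ⟨k', a', τ', hgen, ?_, ?_, ?_⟩
  · intro i
    -- domination for the children
    have hkey : ∀ x y, x < y → g x = true → g y = true → c x = i → c y = i →
        zc e (φ x) < zc e (φ y) ∧ zc e (φ y) - zc e (φ x) ≤ z y - z x := by
      intro x y hxy hx hy hcx hcy
      obtain ⟨h1, h2⟩ := hφ2 x y hxy hx hy
      have h3 := h.mono h1
      rw [hdiv x hx, hdiv y hy, hcx, hcy] at h3
      have h4 : zc e (φ x) * B < zc e (φ y) * B := by omega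
      have h5 := Nat.lt_of_mul_lt_mul_right h4
      refine ⟨h5, ?_⟩
      have h6 := oc_le hφ1 hφ2 hxy hx hy
      have h7 := oc_add_zc e (φ x)
      have h8 := oc_add_zc e (φ y)
      have h9 := oc_add_zc g x
      have h10 := oc_add_zc g y
      have h11 : oc g x ≤ oc g y := Nat.count_monotone _ hxy.le
      have h12 : zc g x ≤ zc g y := Nat.count_monotone _ hxy.le
      have h13 : oc e (φ x) ≤ oc e (φ y) := Nat.count_monotone _ h1.le
      simp only [hz]
      omega
    have hex : ∀ t, a' i t = true → ∃ n, g n = true ∧ c n = i ∧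
        t + (if i ≤ k' then 1 else 0) = z n := by
      intro t ht
      simpa only [ha', decide_eq_true_eq] using ht
    choose! ν hν1 hν2 hν3 using hex
    have hek : ∀ t, a' i t = true → (if i ≤ k then 1 else 0) ≤ zc e (φ (ν t)) := by
      intro t ht
      split_ifs with h1
      · have h2 := hdiv (ν t) (hν1 t ht)
        have h3 := h.mono.monotone (Nat.zero_le (φ (ν t)))
        have h4 := h.start
        rw [hν2 t ht] at h2
        rcases Nat.eq_zero_or_pos (zc e (φ (ν t))) with h5 | h5
        · rw [h5] at h2; omega
        · exact h5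
      · exact Nat.zero_le _
    refine ⟨fun t => zc e (φ (ν t)) - if i ≤ k then 1 else 0, ?_, ?_⟩
    · intro t ht
      have h1 := (h.one (φ (ν t)) (hφ1 _ (hν1 t ht))).2
      rw [one_div h (hφ1 _ (hν1 t ht))] at h1
      have h2 : τ (φ (ν t)) % B = i := hν2 t ht
      rw [h2] at h1
      exact h1
    · intro t u htu ht hu
      have h1 := hν3 t ht
      have h2 := hν3 u hu
      have h3 : ν t < ν u := by
        by_contra hcon
        push Not at hcon
        have : z (ν u) ≤ z (ν t) := Nat.count_monotone _ hcon
        omega
      obtain ⟨h4, h5⟩ := hkey _ _ h3 (hν1 t ht) (hν1 u hu) (hν2 t ht) (hν2 u hu)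
      have h6 := hek t ht
      have h7 := hek u hu
      simp only
      omega
  · intro h0
    rw [hk', if_neg (by simp [h0])]
    omega
  · intro h0
    have h1 := hcB 0 h0
    have h2 : k' + 1 = c 0 := by rw [hk', if_pos h0]; omega
    refine ⟨by omega, ?_⟩
    simp only [ha', decide_eq_true_eq]
    refine ⟨0, h0, h2.symm, ?_⟩
    rw [if_neg (by omega), hz0]

/-! ### Construction of the new configuration -/

/-- A rotor configuration together with a dominated sequence. -/
structure Data where
  b : List ℕ → ℕ
  r : List ℕ → ℕ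
  g : ℕ → Bool
  hr : ∀ w, r w ≤ b w
  hdom : Dom g (esc b r)

lemma exists_choice (d : Data) : ∃ (k' : ℕ) (a' : ℕ → ℕ → Bool) (τ' : ℕ → ℕ),
    Gen (d.b [] + 1) k' a' d.g τ' ∧ (∀ i, Dom (a' i) (esc (sub d.b i) (sub d.r i))) ∧
      (d.g 0 = false → k' + 1 = d.b [] + 1) ∧
      (d.g 0 = true → k' + 1 < d.b [] + 1 ∧ a' (k' + 1) 0 = true) :=
  match_lemma (gen_actual (d.hr [])) d.hdom

/-- The new position of the first rotor. -/
noncomputable def Data.k (d : Data) : ℕ := (exists_choice d).choose

/-- The new sequences for the children. -/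
noncomputable def Data.a (d : Data) : ℕ → ℕ → Bool := (exists_choice d).choose_spec.choose

/-- The new event times. -/
noncomputable def Data.τ (d : Data) : ℕ → ℕ := (exists_choice d).choose_spec.choose_spec.choose

lemma Data.spec (d : Data) : Gen (d.b [] + 1) d.k d.a d.g d.τ ∧
    (∀ i, Dom (d.a i) (esc (sub d.b i) (sub d.r i))) ∧
      (d.g 0 = false → d.k + 1 = d.b [] + 1) ∧
      (d.g 0 = true → d.k + 1 < d.b [] + 1 ∧ d.a (d.k + 1) 0 = true) :=
  (exists_choice d).choose_spec.choose_spec.choose_spec

/-- The data for the `i`-th child. -/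
noncomputable def Data.child (d : Data) (i : ℕ) : Data :=
  ⟨sub d.b i, sub d.r i, d.a i, fun w => d.hr (i :: w), d.spec.2.1 i⟩

/-- The new configuration. -/
noncomputable def build : List ℕ → Data → ℕ
  | [], d => d.k
  | i :: w, d => build w (d.child i)

/-- The new configuration, as a function of the vertex. -/
noncomputable def Data.new (d : Data) : List ℕ → ℕ := fun w => build w d

lemma sub_new (d : Data) (i : ℕ) : sub d.new i = (d.child i).new := rfl

lemma build_le (w : List ℕ) : ∀ d : Data, build w d ≤ d.b w := by
  induction w with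
  | nil =>
    intro d
    have := d.spec.1.hkB
    simp only [build]
    omega
  | cons i w ih =>
    intro d
    exact ih (d.child i)

lemma esc_zero (n : ℕ) : ∀ d : Data, d.g 0 = true → (traj d.b d.new n).1 ≠ none := by
  induction n using Nat.strong_induction_on with
  | _ n ih =>
    intro d hd
    cases n with
    | zero => simp [traj]
    | succ n =>
      obtain ⟨h1, h2⟩ := d.spec.2.2.2 hd
      have hk : d.new [] < d.b [] := by
        change d.k < d.b []
        omega
      have h3 : ∀ m < n, (traj (sub d.b (d.new [] + 1)) (sub d.new (d.new [] + 1)) m).1 ≠ none :=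
        fun m hm => ih m (by omega) (d.child (d.new [] + 1)) h2
      rw [traj_emb hk n h3]
      simp [emb]

lemma zc_le (e : ℕ → Bool) (m : ℕ) : zc e m ≤ m := Nat.count_le _

lemma main (m : ℕ) : ∀ d : Data, esc d.b d.new m = d.g m := by
  classical
  induction m using Nat.strong_induction_on with
  | _ m ih =>
    intro d
    have hle : d.new [] ≤ d.b [] := build_le [] d
    obtain ⟨gen, -, hf, ht⟩ := d.spec
    have hk : d.new [] = d.k := rfl
    rcases Nat.eq_zero_or_pos m with hm | hm
    · subst hm
      cases hg : d.g 0 with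
      | false =>
        have h1 : d.new [] = d.b [] := by rw [hk]; have := hf hg; omega
        have h2 := (decomp_R h1).1
        rw [Bool.eq_false_iff, Ne, esc_iff]
        exact h2
      | true =>
        rw [esc_iff]
        exact fun n => esc_zero n d hg
    · have hB : 0 < d.b [] + 1 := Nat.succ_pos _
      -- the visit indices are small
      have hV : ∀ S, S ≤ d.τ m → S % (d.b [] + 1) ≠ 0 →
          S / (d.b [] + 1) - (if S % (d.b [] + 1) ≤ d.k then 1 else 0) < m := by
        intro S hS hS0
        have h1 : S / (d.b [] + 1) ≤ zc d.g m := by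
          rw [zc_eq gen]
          have h2 : S / (d.b [] + 1) = (S - 1) / (d.b [] + 1) := by
            symm
            rw [Nat.div_eq_iff hB]
            have h3 := Nat.div_add_mod S (d.b [] + 1)
            have h4 := Nat.mod_lt S hB
            have h5 : S / (d.b [] + 1) * (d.b [] + 1) = (d.b [] + 1) * (S / (d.b [] + 1)) :=
              mul_comm _ _
            rw [h5]
            generalize (d.b [] + 1) * (S / (d.b [] + 1)) = p at *
            omega
          rw [h2]
          exact Nat.div_le_div_right (by omega)
        have h2 := zc_le d.g m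
        by_contra hcon
        push Not at hcon
        have h3 : zc d.g m = m := by
          have : S / (d.b [] + 1) - (if S % (d.b [] + 1) ≤ d.k then 1 else 0) ≤
            S / (d.b [] + 1) := Nat.sub_le _ _
          omega
        have h4 : d.g 0 = false := by
          cases hg : d.g 0 with
          | false => rfl
          | true =>
            exfalso
            have h5 : oc d.g 1 = 1 := by
              have : oc d.g (0 + 1) = 1 := by rw [oc_succ, if_pos hg]; simp [oc]
              exact this
            have h6 : oc d.g 1 ≤ oc d.g m := Nat.count_monotone _ hm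
            have h7 := oc_add_zc d.g m
            omega
        have h5 := hf h4
        have h6 := Nat.mod_lt S hB
        rw [if_pos (by omega)] at hcon
        omega
      have hends : ∀ s, d.k + s + 1 ≤ d.τ m → (Ends d.b d.new s ↔ ∃ j, d.τ j = d.k + s + 1) := by
        intro s hs
        by_cases h0 : (d.k + s + 1) % (d.b [] + 1) = 0
        · exact ⟨fun _ => gen.surj _ (by omega) (Or.inl h0), fun _ => Or.inl h0⟩
        · have h1 := hV _ hs h0
          have h2 := vis_abs (s := s) hle (Nat.one_le_iff_ne_zero.2 h0) rfl
          have h3 := ih _ h1 (d.child ((d.k + s + 1) % (d.b [] + 1)))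
          have h4 : Ends d.b d.new s ↔ d.a ((d.k + s + 1) % (d.b [] + 1))
              ((d.k + s + 1) / (d.b [] + 1) -
                if (d.k + s + 1) % (d.b [] + 1) ≤ d.k then 1 else 0) = true := by
            change _ ↔ (d.child ((d.k + s + 1) % (d.b [] + 1))).g _ = true
            rw [← h3, esc_iff]
            unfold Ends
            rw [hk] at h2 ⊢
            rw [h2]
            constructor
            · rintro (h5 | h5)
              · exact absurd h5 h0
              · exact h5
            · intro h5
              exact Or.inr h5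
          rw [h4]
          constructor
          · intro h5
            exact gen.surj _ (by omega) (Or.inr h5)
          · rintro ⟨j, hj⟩
            have h5 : d.g j = true := by
              cases hg : d.g j with
              | true => rfl
              | false =>
                exfalso
                have := gen.zero j hg
                rw [hj] at this
                exact h0 this
            have h6 := (gen.one j h5).2
            rw [hj] at h6
            exact h6
      have hτk : ∀ j, d.k < d.τ j := fun j => gen.start.trans_le (gen.mono.monotone (Nat.zero_le j))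
      set s₀ := d.τ m - d.k - 1 with hs₀
      have hs₁ : d.k + s₀ + 1 = d.τ m := by have := hτk m; omega
      have hcount : Nat.count (Ends d.b d.new) s₀ = m := by
        rw [Nat.count_eq_card_filter_range]
        have : Finset.filter (Ends d.b d.new) (Finset.range s₀) =
            Finset.image (fun j => d.τ j - d.k - 1) (Finset.range m) := by
          ext s
          simp only [Finset.mem_filter, Finset.mem_range, Finset.mem_image]
          constructor
          · rintro ⟨h1, h2⟩
            rw [hends s (by omega)] at h2
            obtain ⟨j, hj⟩ := h2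
            refine ⟨j, ?_, by omega⟩
            refine gen.mono.lt_iff_lt.1 ?_
            omega
          · rintro ⟨j, hj, rfl⟩
            have h1 := gen.mono hj
            have h2 := hτk j
            refine ⟨by omega, ?_⟩
            rw [hends _ (by omega)]
            exact ⟨j, by omega⟩
        rw [this, Finset.card_image_of_injOn, Finset.card_range]
        intro i _ j _ hij
        have h1 := hτk i
        have h2 := hτk j
        simp only at hij
        exact gen.mono.injective (by omega)
      have hE : Ends d.b d.new s₀ := (hends s₀ hs₁.le).2 ⟨m, hs₁.symm⟩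
      have hout := outcome hle hE
      rw [hcount, hk, hs₁, ← esc_iff] at hout
      cases hg : d.g m with
      | true => exact hout.2 (gen.one m hg).1
      | false =>
        rw [Bool.eq_false_iff]
        intro hcon
        exact (hout.1 hcon) (gen.zero m hg)

/-- The set of escape sequences of a tree is closed downwards. -/
theorem result (b : List ℕ → ℕ) (e e' : ℕ → Bool) (he : IsEscapeSequence b e)
    (hle : ∀ m, e' m = true → e m = true) : IsEscapeSequence b e' := by
  obtain ⟨r, hr, hre⟩ := he
  let d : Data := ⟨b, r, e', hr, ⟨id, fun n hn => (esc_iff b r n).2 ((hre n).1 (hle n hn)),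
    fun n m hnm _ _ => ⟨hnm, le_rfl⟩⟩⟩
  refine ⟨d.new, fun w => build_le w d, fun m => ?_⟩
  rw [← esc_iff]
  have := main m d
  rw [show esc b d.new m = e' m from this]

end Pool.Agent.Results.MP_4b601f_co.DownwardClosed
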